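import Pool.Agent.R745.CDN.Defs

/-! Task R1N: the pure letters carry little weight (alphabets of 8, ..., 11 letters). -/

namespace R745CD

open Finset H825CD

/-- numerical facts on `m` -/
theorem R1N_num {Q : ℕ} {m : ℝ} (hQ : 7 ≤ Q) (hQ2 : Q ≤ 10) (hm0 : 0 ≤ m)
    (hm : (qb Q : ℝ) * m ≤ 1) :
    (Q : ℝ) * m ≤ 7 / 16 ∧ ((Q : ℝ) - 1) * m ≤ 3 / 8 ∧ ((Q : ℝ) - 2) * m ≤ 5 / 16 ∧
      ((Q : ℝ) - 3) * m ≤ 1 / 4 ∧ (Q : ℝ) ^ 2 * m < 4 := by
  interval_cases Q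
  · have e : qb 7 = 16 := rfl
    rw [e] at hm
    push_cast at hm ⊢
    refine ⟨?_, ?_, ?_, ?_, ?_⟩ <;> linarith
  · have e : qb 8 = 20 := rfl
    rw [e] at hm
    push_cast at hm ⊢
    refine ⟨?_, ?_, ?_, ?_, ?_⟩ <;> linarith
  · have e : qb 9 = 25 := rfl
    rw [e] at hm
    push_cast at hm ⊢
    refine ⟨?_, ?_, ?_, ?_, ?_⟩ <;> linarith
  · have e : qb 10 = 30 := rfl
    rw [e] at hm
    push_cast at hm ⊢
    refine ⟨?_, ?_, ?_, ?_, ?_⟩ <;> linarith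

/-- the main inequality for real numbers of letters -/
theorem R1N_side (Q m k l a b z w : ℝ) (hm0 : 0 ≤ m) (hQ2 : (Q - 2) * m ≤ 5 / 16)
    (hQQ : Q ^ 2 * m < 4) (hk : k = 0 ∨ 1 ≤ k) (hl : l = 0 ∨ 1 ≤ l) (hkl : k + l ≤ Q)
    (ha0 : 0 ≤ a) (hb0 : 0 ≤ b) (ha1 : a ≤ 1) (hb1 : b ≤ 1) (hz : 0 ≤ z) (hw : 0 ≤ w)
    (ha : a ≤ k * z) (hb : b ≤ l * w) (h1 : z * (1 - b + w) ≤ m) (h2 : w * (1 - a + z) ≤ m) :
    a ≤ 3 / 2 * k * m := by
  rcases hk with hk | hk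
  · rw [hk, zero_mul] at ha
    rw [hk]
    simpa using ha
  rcases hl with hl | hl
  · rw [hl, zero_mul] at hb
    have hb' : b = 0 := le_antisymm hb hb0
    rw [hb'] at h1
    have hzm : z ≤ m := by nlinarith [mul_nonneg hz hw]
    have hkm : 0 ≤ k * m := by positivity
    calc a ≤ k * z := ha
      _ ≤ k * m := mul_le_mul_of_nonneg_left hzm (by linarith)
      _ ≤ 3 / 2 * k * m := by nlinarith
  have hk0 : 0 < k := by linarith
  have hl0 : 0 < l := by linarith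
  have hI : a * (l - (l - 1) * b) ≤ k * l * m := by
    have hf : 0 ≤ l - (l - 1) * b := by
      have f1 := mul_nonneg (sub_nonneg.2 hl) (sub_nonneg.2 hb1)
      nlinarith
    have e1 : l - (l - 1) * b ≤ l * (1 - b + w) := by nlinarith
    have hkz : 0 ≤ k * z := by positivity
    calc a * (l - (l - 1) * b) ≤ (k * z) * (l - (l - 1) * b) := mul_le_mul_of_nonneg_right ha hf
      _ ≤ (k * z) * (l * (1 - b + w)) := mul_le_mul_of_nonneg_left e1 hkz
      _ = (k * l) * (z * (1 - b + w)) := by ring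
      _ ≤ (k * l) * m := mul_le_mul_of_nonneg_left h1 (by positivity)
  have hII : b * (k - (k - 1) * a) ≤ k * l * m := by
    have hf : 0 ≤ k - (k - 1) * a := by
      have f1 := mul_nonneg (sub_nonneg.2 hk) (sub_nonneg.2 ha1)
      nlinarith
    have e1 : k - (k - 1) * a ≤ k * (1 - a + z) := by nlinarith
    have hlw : 0 ≤ l * w := by positivity
    calc b * (k - (k - 1) * a) ≤ (l * w) * (k - (k - 1) * a) := mul_le_mul_of_nonneg_right hb hf
      _ ≤ (l * w) * (k * (1 - a + z)) := mul_le_mul_of_nonneg_left e1 hlw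
      _ = (k * l) * (w * (1 - a + z)) := by ring
      _ ≤ (k * l) * m := mul_le_mul_of_nonneg_left h2 (by positivity)
  rcases hm0.eq_or_lt with hm00 | hmpos
  · have hf : 1 ≤ l - (l - 1) * b := by
      nlinarith [mul_nonneg (by linarith : (0:ℝ) ≤ l - 1) (by linarith : (0:ℝ) ≤ 1 - b)]
    rw [← hm00] at hI ⊢
    nlinarith
  by_contra hcon
  push Not at hcon
  set s : ℝ := 3 / 2 * k * m with hs
  -- the quadratic
  have hD : 1 ≤ k - (k - 1) * a := by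
    nlinarith [mul_nonneg (by linarith : (0:ℝ) ≤ k - 1) (by linarith : (0:ℝ) ≤ 1 - a)]
  have hg : 0 ≤ (k - 1) * a ^ 2 - a * (k - (l - 1) * k * m + k * (k - 1) * m) + k ^ 2 * m := by
    set D : ℝ := k - (k - 1) * a with hDd
    have e1 : (a * (l - (l - 1) * b)) * D ≤ (k * l * m) * D :=
      mul_le_mul_of_nonneg_right hI (by linarith)
    have e2 : (a * (l - 1)) * (b * D) ≤ (a * (l - 1)) * (k * l * m) :=
      mul_le_mul_of_nonneg_left hII (mul_nonneg ha0 (by linarith))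
    have e3 : l * (a * D - (l - 1) * a * k * m) ≤ l * (k * m * D) := by nlinarith
    have e4 : a * D - (l - 1) * a * k * m ≤ k * m * D := le_of_mul_le_mul_left e3 hl0
    rw [hDd] at e4
    nlinarith
  have hg1 : k * l * m < 1 := by
    have e1 : 4 * (k * l) ≤ Q ^ 2 := by nlinarith [sq_nonneg (k - l)]
    nlinarith
  have hs0 : 0 < s := by rw [hs]; positivity
  have hgs : (k - 1) * s ^ 2 - s * (k - (l - 1) * k * m + k * (k - 1) * m) + k ^ 2 * m < 0 := by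
    have e1 : (k - 1) * s ^ 2 - s * (k - (l - 1) * k * m + k * (k - 1) * m) + k ^ 2 * m =
        (k ^ 2 * m) * ((3 / 2) ^ 2 * (k - 1) * m - 3 / 2 * (1 + (k - l) * m) + 1) := by
      rw [hs]; ring
    rw [e1]
    apply mul_neg_of_pos_of_neg (by positivity)
    have e2 : (3 * k + 6 * l - 9) * m ≤ (6 * (Q - 2)) * m :=
      mul_le_mul_of_nonneg_right (by linarith) hm0
    nlinarith
  have hconv : (1 - s) * ((k - 1) * a ^ 2 - a * (k - (l - 1) * k * m + k * (k - 1) * m) + k ^ 2 * m)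
      = (1 - a) * ((k - 1) * s ^ 2 - s * (k - (l - 1) * k * m + k * (k - 1) * m) + k ^ 2 * m) +
        (a - s) * (k * l * m - 1) - (k - 1) * ((1 - a) * (a - s) * (1 - s)) := by ring
  have p1 : 0 < 1 - s := by linarith
  have p2 : 0 ≤ (k - 1) * ((1 - a) * (a - s) * (1 - s)) :=
    mul_nonneg (by linarith) (mul_nonneg (mul_nonneg (by linarith) (by linarith)) p1.le)
  have p3 := mul_nonneg p1.le hg
  have p4 : (a - s) * (k * l * m - 1) < 0 := mul_neg_of_pos_of_neg (by linarith) (by linarith)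
  have p5 : (1 - a) * ((k - 1) * s ^ 2 - s * (k - (l - 1) * k * m + k * (k - 1) * m) + k ^ 2 * m)
      ≤ 0 := mul_nonpos_of_nonneg_of_nonpos (by linarith) hgs.le
  linarith

/-- the case of at most one pure letter on the other side -/
theorem R1N_one {m : ℝ} {k l : ℕ} {a b z w : ℝ} (hl : l ≤ 1) (hb0 : 0 ≤ b) (hz : 0 ≤ z)
    (hw : 0 ≤ w) (ha : a ≤ k * z) (hb : b ≤ l * w) (h1 : z * (1 - b + w) ≤ m) : a ≤ k * m := by
  have hl' : (l : ℝ) ≤ 1 := by exact_mod_cast hl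
  have hbw : b ≤ w := hb.trans (by nlinarith)
  have hzm : z ≤ m := by nlinarith [mul_nonneg hz (sub_nonneg.2 hbw)]
  exact ha.trans (mul_le_mul_of_nonneg_left hzm (Nat.cast_nonneg k))

/-- symmetry -/
theorem R1N_symm {Q : ℕ} {m : ℝ} {k l : ℕ} {a b z w : ℝ} (h : PureN Q m k l a b z w) :
    PureN Q m l k b a w z :=
  ⟨h.hQ, h.hQ2, h.hm0, h.hm, by have := h.hkl; omega, h.hb0, h.ha0, h.hb1, h.ha1, h.hw, h.hz,
    h.hb, h.ha, h.h2, h.h1⟩

theorem R1N_natcase (k : ℕ) : (k : ℝ) = 0 ∨ 1 ≤ (k : ℝ) := by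
  rcases Nat.eq_zero_or_pos k with h | h
  · left
    rw [h]
    norm_num
  · right
    exact_mod_cast h

theorem R1N_a {Q : ℕ} {m : ℝ} {k l : ℕ} {a b z w : ℝ} (h : PureN Q m k l a b z w) :
    a ≤ 3 / 2 * k * m ∧ a ≤ 1 / 2 ∧ (k + l + 1 ≤ Q → a ≤ 2 / 5) := by
  obtain ⟨n0, n1, n2, n3, n4⟩ := R1N_num h.hQ h.hQ2 h.hm0 h.hm
  have hkl : (k : ℝ) + l ≤ Q := by exact_mod_cast h.hkl
  have hm0 := h.hm0
  have hs : a ≤ 3 / 2 * k * m := R1N_side Q m k l a b z w h.hm0 n2 n4 (R1N_natcase k) (R1N_natcase l) hkl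
    h.ha0 h.hb0 h.ha1 h.hb1 h.hz h.hw h.ha h.hb h.h1 h.h2
  have hl0 : (0 : ℝ) ≤ l := Nat.cast_nonneg l
  refine ⟨hs, ?_, ?_⟩
  · by_cases hl : l ≤ 1
    · have e := R1N_one hl h.hb0 h.hz h.hw h.ha h.hb h.h1
      have e2 : (k : ℝ) * m ≤ Q * m := mul_le_mul_of_nonneg_right (by linarith) hm0
      linarith
    · have hl2 : (2 : ℝ) ≤ l := by exact_mod_cast (by omega : 2 ≤ l)
      have e2 : (k : ℝ) * m ≤ ((Q : ℝ) - 2) * m := mul_le_mul_of_nonneg_right (by linarith) hm0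
      linarith
  · intro hq
    have hq' : (k : ℝ) + l + 1 ≤ Q := by exact_mod_cast hq
    by_cases hl : l ≤ 1
    · have e := R1N_one hl h.hb0 h.hz h.hw h.ha h.hb h.h1
      have e2 : (k : ℝ) * m ≤ ((Q : ℝ) - 1) * m := mul_le_mul_of_nonneg_right (by linarith) hm0
      linarith
    · have hl2 : (2 : ℝ) ≤ l := by exact_mod_cast (by omega : 2 ≤ l)
      have e2 : (k : ℝ) * m ≤ ((Q : ℝ) - 3) * m := mul_le_mul_of_nonneg_right (by linarith) hm0
      linarith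

theorem R1N_b {Q : ℕ} {m : ℝ} {k l : ℕ} {a b z w : ℝ} (h : PureN Q m k l a b z w) :
    a * (1 - b) ≤ k * m := by
  have hk0 : (0 : ℝ) ≤ k := Nat.cast_nonneg k
  have h1b : 0 ≤ 1 - b := by linarith [h.hb1]
  have e1 : z * (1 - b) ≤ m := by nlinarith [h.h1, mul_nonneg h.hz h.hw]
  calc a * (1 - b) ≤ (k * z) * (1 - b) := mul_le_mul_of_nonneg_right h.ha h1b
    _ = k * (z * (1 - b)) := by ring
    _ ≤ k * m := mul_le_mul_of_nonneg_left e1 hk0

theorem tN_pure : N_pure := by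
  intro Q m k l a b z w h
  obtain ⟨n0, n1, n2, n3, n4⟩ := R1N_num h.hQ h.hQ2 h.hm0 h.hm
  obtain ⟨a1, a2, a3⟩ := R1N_a h
  obtain ⟨b1, b2, b3⟩ := R1N_a (R1N_symm h)
  refine ⟨a1, b1, a2, b2, fun hq => ?_⟩
  have a4 := a3 hq
  have b4 := b3 (by omega)
  refine ⟨a4, b4, ?_⟩
  have e1 := R1N_b h
  have e2 := R1N_b (R1N_symm h)
  have hq' : (k : ℝ) + l + 1 ≤ Q := by exact_mod_cast hq
  have e3 : ((k : ℝ) + l) * m ≤ ((Q : ℝ) - 1) * m :=
    mul_le_mul_of_nonneg_right (by linarith) h.hm0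
  have e4 : a + b - 2 * (a * b) ≤ 3 / 8 := by nlinarith
  have e5 : 4 * (a * b) ≤ (a + b) ^ 2 := by nlinarith [sq_nonneg (a - b)]
  by_contra hc
  push Not at hc
  nlinarith [mul_pos (sub_pos.2 hc) (by linarith : (0 : ℝ) < 3 / 2 - (a + b))]

end R745CD
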